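import Pool.Agent.Run7.h292.Dual
import Pool.Agent.Run7.h364.Enum3

/-!
Global dimensions of spherical fusion categories over the complex numbers which are less than the
square root of two.
-/

set_option autoImplicit false

open Run7.h292

universe v u

/-- Every global dimension of a spherical fusion category over `ℂ` is `1`, or `(5 - √5) / 2`, or at
least `√2`; in particular there is none strictly between `(5 - √5) / 2` and `√2`. -/
theorem Pool.Agent.Results.MP_152d63_al.BelowSqrtTwo.result :
    ∀ x ∈ sphericalGlobalDims.{v, u},
      x = 1 ∨ x = (5 - Real.sqrt 5) / 2 ∨ Real.sqrt 2 ≤ x := by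
  intro x hx
  rcases lt_or_ge x (Real.sqrt 2) with hlt | hge
  · obtain ⟨n, o, d, ν, N, star, ⟨h1, h2, h3, h4, h5, h6, h7, h8⟩, h9, h10, h11, -, -⟩ :=
      exists_data3 hx
    have h : Run7.h364.DimData2 x n o d ν N star :=
      { d_unit := h1, ν_unit := h2, ν_val := h3, ne_zero := h4, fusion := ⟨N, h5⟩,
        sum_sq := h6, real := h7, ineq := h8, fusion' := h5, N_unit := h9, d_star := h10,
        ν_star := h11 }
    rcases h.small hlt with h | h
    · exact Or.inl h
    · exact Or.inr (Or.inl h)
  · exact Or.inr (Or.inr hge)
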